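import Pool.Agent.helper55.RI.Spec

set_option autoImplicit false

namespace Pool.Agent.RI

open Pool.Agent.helper62 Prog Function Pool.Agent.helper81.PL

theorem D5 (hD2 : D2_stmt) (hD3 : D3_stmt) (hD4 : D4_stmt) (hX5 : X5_stmt) (hX9 : X9_stmt) :
    D5_stmt := by
  intro A hA
  obtain ⟨f, hf, hfA⟩ := hA.2 (DS A) (hD2 A hA.1)
  obtain ⟨k, hk⟩ := hX9.2 f (hX5 f hf)
  obtain ⟨h1, h2, h3⟩ := hD3 A k (fun w => by rw [hk]; exact hfA w)
  exact ⟨GG k, hD4 k, h1, h2, h3⟩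

end Pool.Agent.RI
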